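import Pool.Agent.SqLen.Main
import Pool.Agent.SqLen.Better
import Pool.Agent.SqLen.Edges
import Pool.Agent.SqLen.HALF
import Pool.Agent.SqLen.SWAP
import Pool.Agent.SqLen.COUNT
import Pool.Agent.SqLen.NEW
import Pool.Agent.SqLen.FOLD
import Pool.Agent.SqLen.COVER
import Pool.Agent.SqLen.VEC
import Pool.Agent.SqLen.REAL
import Pool.Agent.SqLen.MIN
import Pool.Agent.SqLen.STEP
import Pool.Agent.SqLen.CAT
import Pool.Agent.SqLen.SQCOMM
import Pool.Agent.SqLen.ONE

/-!
# Stable square length and square length in free groups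

For every element `w` of a free group of finite rank, `ssql w ≤ sqlStar w - 1`.
-/

set_option autoImplicit false

namespace Pool.Agent.Results.MP_cbb57c_al.StableSquareLength

open Pool.Agent.SqLen

theorem result : ∀ (r : ℕ) (w : FreeGroup (Fin r)),
    ssql w ≤ (((sqlStar w : ℕ∞) : ENNReal) : EReal) - 1 :=
  p_MAIN (p_BETTER p_COVER (fold (p_COUNT p_HALF p_SWAP) p_NEW) p_EDGES)
    (p_MIN p_VEC p_REAL) (p_ONE p_STEP p_CAT p_SQ p_COMM)

end Pool.Agent.Results.MP_cbb57c_al.StableSquareLength
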